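import Pool.Agent.helper50.MA.Spec1
import Pool.Agent.helper97.MA.A5

/-!
Module B6 of project ma: smooth psh approximations of a maximal function have vanishing Monge-Ampere mass.
-/

set_option autoImplicit false

open MeasureTheory Set Filter Topology Complex
open scoped ContDiff Real NNReal

namespace MAP

noncomputable section

/-- scalar convolution -/
def cvl (ψ f : C2 → ℝ) : C2 → ℝ := convolution ψ f (ContinuousLinearMap.lsmul ℝ ℝ) volume

theorem cvl_apply (ψ f : C2 → ℝ) (x : C2) : cvl ψ f x = ∫ t, ψ t * f (x - t) := rfl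

theorem cvl_swap (ψ f : C2 → ℝ) (x : C2) : cvl ψ f x = ∫ t, f t * ψ (x - t) := by
  have := A5_haar
  rw [cvl_apply, ← integral_sub_left_eq_self (fun t => f t * ψ (x - t)) volume x]
  congr 1
  ext t
  rw [sub_sub_cancel, mul_comm]

theorem cvl_contDiff (ψ f : C2 → ℝ) (hψ : ContDiff ℝ ∞ ψ) (hψc : HasCompactSupport ψ)
    (hf : LocallyIntegrable f (volume : Measure C2)) : ContDiff ℝ ∞ (cvl ψ f) := by
  have := A5_haar
  exact hψc.contDiff_convolution_left _ hψ hf

/-- derivative of a convolution with a Lipschitz function -/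
theorem cvl_fderiv (ψ f : C2 → ℝ) (C : ℝ≥0) (hψ : ContDiff ℝ ∞ ψ) (hψc : HasCompactSupport ψ)
    (hf : LipschitzWith C f) (x v : C2) :
    fderiv ℝ (cvl ψ f) x v = cvl ψ (fun y => lineDeriv ℝ f y v) x := by
  have := A5_haar
  have hloc : LocallyIntegrable f (volume : Measure C2) := hf.continuous.locallyIntegrable
  have hsm := cvl_contDiff ψ f hψ hψc hloc
  have hd : DifferentiableAt ℝ (cvl ψ f) x := (hsm.differentiable (by simp)) x
  have h1 : Tendsto (fun t : ℝ => t⁻¹ • (cvl ψ f (x + t • v) - cvl ψ f x)) (𝓝[>] 0)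
      (𝓝 (fderiv ℝ (cvl ψ f) x v)) := by
    have := (hd.hasFDerivAt.hasLineDerivAt v).tendsto_slope_zero_right
    exact this
  have hgc : Continuous (fun y => ψ (x - y)) := by
    have := hψ.continuous
    fun_prop
  have hgcs : HasCompactSupport (fun y => ψ (x - y)) :=
    hψc.comp_homeomorph (Homeomorph.subLeft x)
  have hgi : Integrable (fun y => ψ (x - y)) (volume : Measure C2) :=
    hgc.integrable_of_hasCompactSupport hgcs
  have h2 := LipschitzWith.integral_inv_smul_sub_mul_tendsto_integral_lineDeriv_mul hf hgi v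
  have h3 : ∀ t : ℝ, t⁻¹ • (cvl ψ f (x + t • v) - cvl ψ f x) =
      ∫ y, (t⁻¹ • (f (y + t • v) - f y)) * ψ (x - y) := by
    intro t
    have h4 : cvl ψ f (x + t • v) = ∫ y, f (y + t • v) * ψ (x - y) := by
      rw [cvl_apply, ← integral_sub_left_eq_self (fun y => f (y + t • v) * ψ (x - y)) volume x]
      congr 1
      ext y
      rw [sub_sub_cancel, mul_comm, sub_add_eq_add_sub]
    rw [h4, cvl_swap, ← integral_sub, smul_eq_mul, ← integral_const_mul]
    · congr 1
      ext y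
      simp only [smul_eq_mul]
      ring
    · apply Continuous.integrable_of_hasCompactSupport
      · have := hf.continuous
        fun_prop
      · exact hgcs.mul_left
    · apply Continuous.integrable_of_hasCompactSupport
      · have := hf.continuous
        fun_prop
      · exact hgcs.mul_left
  simp only [h3] at h1
  rw [tendsto_nhds_unique h1 h2, cvl_swap]

theorem cvl_congr (ψ f g : C2 → ℝ) (x : C2) (h : ∀ t, ψ t ≠ 0 → f (x - t) = g (x - t)) :
    cvl ψ f x = cvl ψ g x := by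
  rw [cvl_apply, cvl_apply]
  congr 1
  ext t
  by_cases h0 : ψ t = 0
  · simp [h0]
  · rw [h t h0]

theorem cvl_bound (ψ f : C2 → ℝ) (M : ℝ) (hψ : Continuous ψ) (hψc : HasCompactSupport ψ)
    (hψ0 : ∀ t, 0 ≤ ψ t) (hψ1 : ∫ t, ψ t = 1) (hM : ∀ y, |f y| ≤ M) (x : C2) :
    |cvl ψ f x| ≤ M := by
  have := A5_haar
  rw [cvl_apply]
  have h1 : ‖∫ t, ψ t * f (x - t)‖ ≤ ∫ t, ψ t * M := by
    apply norm_integral_le_of_norm_le
    · exact (hψ.integrable_of_hasCompactSupport hψc).mul_const M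
    · filter_upwards with t
      rw [norm_mul, Real.norm_of_nonneg (hψ0 t)]
      exact mul_le_mul_of_nonneg_left (hM _) (hψ0 t)
  rwa [integral_mul_const, hψ1, one_mul] at h1

/-- mollification of a psh function is psh -/
theorem cvl_psh (ψ u U0 : C2 → ℝ) (W V : Set C2) (hu : PshOn W u) (hU0 : Continuous U0)
    (hUu : ∀ y ∈ W, U0 y = u y) (hψs : Continuous ψ) (hψ0 : ∀ t, 0 ≤ ψ t)
    (hψc : HasCompactSupport ψ) (hV : ∀ x ∈ V, ∀ t, ψ t ≠ 0 → x - t ∈ W)
    (hc : Continuous (cvl ψ U0)) : PshOn V (cvl ψ U0) := by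
  have := A5_haar
  refine ⟨hc.continuousOn, ?_⟩
  intro x ξ hdisc
  have hInt := A5_int ψ U0 hψs hψ0 hψc hU0 x ξ
  have hxV : x ∈ V := hdisc ⟨0, by simp, by simp⟩
  unfold mean
  simp only [cvl_apply]
  rw [intervalIntegral.integral_of_le (by positivity)]
  rw [MeasureTheory.integral_integral_swap hInt]
  rw [← MeasureTheory.integral_const_mul]
  apply MeasureTheory.integral_mono
  · apply Continuous.integrable_of_hasCompactSupport
    · fun_prop
    · exact hψc.mul_right
  · exact (hInt.integral_prod_right).const_mul _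
  · intro t
    simp only
    rw [MeasureTheory.integral_const_mul]
    by_cases h0 : ψ t = 0
    · simp [h0]
    · have hd2 : disc (x - t) ξ ⊆ W := by
        rintro y ⟨ζ, hζ, rfl⟩
        have : x - t + ζ • ξ = (x + ζ • ξ) - t := by abel
        rw [this]
        exact hV _ (hdisc ⟨ζ, hζ, rfl⟩) t h0
      have h1 := hu.2 (x - t) ξ hd2
      have h2 : U0 (x - t) = u (x - t) := hUu _ (hV x hxV t h0)
      have h3 : mean u (x - t) ξ =
          (2 * π)⁻¹ * ∫ θ in Ioc (0 : ℝ) (2 * π), U0 (x + cexp (θ * I) • ξ - t) := by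
        unfold mean
        rw [intervalIntegral.integral_of_le (by positivity)]
        congr 1
        apply MeasureTheory.setIntegral_congr_fun measurableSet_Ioc
        intro θ _
        have h4 : x + cexp (θ * I) • ξ ∈ disc x ξ :=
          ⟨cexp (θ * I), by rw [Complex.norm_exp_ofReal_mul_I], rfl⟩
        have h5 := hUu _ (hV _ (hdisc h4) t h0)
        simp only
        rw [h5]
        congr 1
        abel
      rw [h2]
      calc ψ t * u (x - t) ≤ ψ t * mean u (x - t) ξ := mul_le_mul_of_nonneg_left h1 (hψ0 t)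
        _ = _ := by rw [h3]; ring

/-! ### algebra -/

theorem C2_decomp (ξ : C2) : ξ = ξ.1.re • e1 + ξ.1.im • (I • e1) + ξ.2.re • e2 + ξ.2.im • (I • e2) := by
  unfold e1 e2
  ext <;> simp

/-- the Hermitian part in coordinates -/
theorem lap_form (A : C2 →L[ℝ] (C2 →L[ℝ] ℝ)) (hA : ∀ v w, A v w = A w v) (x1 y1 x2 y2 : ℝ) (ξ : C2)
    (hξ : ξ = x1 • e1 + y1 • (I • e1) + x2 • e2 + y2 • (I • e2)) :
    A ξ ξ + A (I • ξ) (I • ξ) =
      (A e1 e1 + A (I • e1) (I • e1)) * (x1 ^ 2 + y1 ^ 2) + (A e2 e2 + A (I • e2) (I • e2)) * (x2 ^ 2 + y2 ^ 2)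
      + 2 * (A e1 e2 + A (I • e1) (I • e2)) * (x1 * x2 + y1 * y2)
      + 2 * (A e1 (I • e2) - A (I • e1) e2) * (x1 * y2 - y1 * x2) := by
  have hI : I • ξ = (-y1) • e1 + x1 • (I • e1) + (-y2) • e2 + x2 • (I • e2) := by
    rw [hξ]
    unfold e1 e2
    ext
    · simp
      linear_combination (y1 : ℂ) * I_sq
    · simp
      linear_combination (y2 : ℂ) * I_sq
  rw [hI]
  rw [hξ]
  simp only [map_add, map_smul, _root_.add_apply, _root_.smul_apply, smul_eq_mul]
  rw [hA (I • e1) e1, hA e2 e1, hA e2 (I • e1), hA (I • e2) e1, hA (I • e2) (I • e1), hA (I • e2) e2]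
  ring

theorem herm_det (a c b b' : ℝ)
    (hpos : ∀ x1 y1 x2 y2 : ℝ, 0 ≤ a * (x1 ^ 2 + y1 ^ 2) + c * (x2 ^ 2 + y2 ^ 2) + 2 * b * (x1 * x2 + y1 * y2)
      + 2 * b' * (x1 * y2 - y1 * x2))
    (hnull : ∃ x1 y1 x2 y2 : ℝ, ¬ (x1 = 0 ∧ y1 = 0 ∧ x2 = 0 ∧ y2 = 0) ∧
      a * (x1 ^ 2 + y1 ^ 2) + c * (x2 ^ 2 + y2 ^ 2) + 2 * b * (x1 * x2 + y1 * y2)
      + 2 * b' * (x1 * y2 - y1 * x2) ≤ 0) : a * c - b ^ 2 - b' ^ 2 = 0 := by
  have ha : 0 ≤ a := by have := hpos 1 0 0 0; linarith
  have hc : 0 ≤ c := by have := hpos 0 0 1 0; linarith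
  have h1 : 0 ≤ a * (a * c - b ^ 2 - b' ^ 2) := by
    have := hpos (-b) b' a 0
    nlinarith [this]
  have h2 : 0 ≤ c * (a * c - b ^ 2 - b' ^ 2) := by
    have := hpos c 0 (-b) (-b')
    nlinarith [this]
  have hge : 0 ≤ a * c - b ^ 2 - b' ^ 2 := by
    by_contra hneg
    push Not at hneg
    have ha0 : a = 0 := by
      by_contra h
      have : 0 < a := lt_of_le_of_ne ha (Ne.symm h)
      nlinarith
    have hc0 : c = 0 := by
      by_contra h
      have : 0 < c := lt_of_le_of_ne hc (Ne.symm h)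
      nlinarith
    subst ha0
    subst hc0
    have := hpos 1 0 (-b) (-b')
    nlinarith [this]
  obtain ⟨x1, y1, x2, y2, hne, hle⟩ := hnull
  by_contra hD
  have hD' : 0 < a * c - b ^ 2 - b' ^ 2 := lt_of_le_of_ne hge (Ne.symm hD)
  have hapos : 0 < a := by
    rcases ha.lt_or_eq with h | h
    · exact h
    · exfalso
      rw [← h] at hD'
      nlinarith [sq_nonneg b, sq_nonneg b']
  have key : (a * x1 + b * x2 + b' * y2) ^ 2 + (a * y1 + b * y2 - b' * x2) ^ 2 +
      (a * c - b ^ 2 - b' ^ 2) * (x2 ^ 2 + y2 ^ 2) ≤ 0 := by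
    have := mul_nonpos_of_nonneg_of_nonpos ha hle
    nlinarith [this]
  have h3 : (a * c - b ^ 2 - b' ^ 2) * (x2 ^ 2 + y2 ^ 2) ≤ 0 := by
    nlinarith [sq_nonneg (a * x1 + b * x2 + b' * y2), sq_nonneg (a * y1 + b * y2 - b' * x2)]
  have h4 : x2 ^ 2 + y2 ^ 2 ≤ 0 := by
    by_contra h
    push Not at h
    have := mul_pos hD' h
    linarith
  have hx2 : x2 = 0 := by nlinarith [sq_nonneg x2, sq_nonneg y2]
  have hy2 : y2 = 0 := by nlinarith [sq_nonneg x2, sq_nonneg y2]
  subst hx2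
  subst hy2
  have h5 : (a * x1) ^ 2 + (a * y1) ^ 2 ≤ 0 := by nlinarith [key]
  have hax : a * x1 = 0 := by nlinarith [sq_nonneg (a * x1), sq_nonneg (a * y1)]
  have hay : a * y1 = 0 := by nlinarith [sq_nonneg (a * x1), sq_nonneg (a * y1)]
  have hx1 : x1 = 0 := by
    rcases mul_eq_zero.mp hax with h | h
    · linarith
    · exact h
  have hy1 : y1 = 0 := by
    rcases mul_eq_zero.mp hay with h | h
    · linarith
    · exact h
  exact hne ⟨hx1, hy1, rfl, rfl⟩

theorem D2_eq (w : C2 → ℝ) (hw : ContDiff ℝ ∞ w) (x ξ η : C2) :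
    D2 w x ξ η = fderiv ℝ (fun y => fderiv ℝ w y η) x ξ := by
  have h1 : DifferentiableAt ℝ (fderiv ℝ w) x := by
    have : ContDiff ℝ ∞ (fderiv ℝ w) := hw.fderiv_right (by simp)
    exact this.differentiable (by simp) x
  unfold D2
  rw [fderiv_clm_apply h1 (differentiableAt_const η)]
  simp

theorem D2_cont (w : C2 → ℝ) (hw : ContDiff ℝ ∞ w) (ξ η : C2) :
    Continuous (fun x => D2 w x ξ η) := by
  have h1 : ContDiff ℝ ∞ (fderiv ℝ w) := hw.fderiv_right (by simp)
  have h2 : ContDiff ℝ ∞ (fderiv ℝ (fderiv ℝ w)) := h1.fderiv_right (by simp)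
  have h3 := h2.continuous
  unfold D2
  fun_prop

theorem nsq_cont : Continuous nsq := by
  unfold nsq
  fun_prop

theorem bal_open (r : ℝ) : IsOpen (bal 0 r) := by
  unfold bal
  have := nsq_cont
  exact isOpen_lt (by fun_prop) continuous_const

theorem nsq_conv (x y : C2) (a b : ℝ) (ha : 0 ≤ a) (hb : 0 ≤ b) (hab : a + b = 1) :
    nsq (a • x + b • y) ≤ a * nsq x + b * nsq y := by
  have key : ∀ p q : ℂ, ‖(a : ℝ) • p + (b : ℝ) • q‖ ^ 2 ≤ a * ‖p‖ ^ 2 + b * ‖q‖ ^ 2 := by
    intro p q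
    have h1 : ‖(a : ℝ) • p + (b : ℝ) • q‖ ≤ a * ‖p‖ + b * ‖q‖ := by
      refine (norm_add_le _ _).trans ?_
      rw [norm_smul, norm_smul, Real.norm_of_nonneg ha, Real.norm_of_nonneg hb]
    have h2 : ‖(a : ℝ) • p + (b : ℝ) • q‖ ^ 2 ≤ (a * ‖p‖ + b * ‖q‖) ^ 2 := by
      gcongr
    refine h2.trans ?_
    have hb' : b = 1 - a := by linarith
    subst hb'
    nlinarith [mul_nonneg (mul_nonneg ha hb) (sq_nonneg (‖p‖ - ‖q‖))]
  unfold nsq
  have h1 := key x.1 y.1
  have h2 := key x.2 y.2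
  simp only [Prod.fst_add, Prod.smul_fst, Prod.snd_add, Prod.smul_snd]
  linarith

theorem bal_convex (r : ℝ) : Convex ℝ (bal 0 r) := by
  intro x hx y hy a b ha hb hab
  simp only [bal, mem_ofPred_eq, sub_zero] at hx hy ⊢
  refine (nsq_conv x y a b ha hb hab).trans_lt ?_
  rcases ha.lt_or_eq with h | h
  · nlinarith
  · subst h
    have : b = 1 := by linarith
    subst this
    linarith

theorem norm_le_of_bal (r : ℝ) (hr : 0 < r) (x : C2) (hx : x ∈ bal 0 r) : ‖x‖ ≤ r := by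
  simp only [bal, mem_ofPred_eq, sub_zero, nsq] at hx
  rw [Prod.norm_def]
  apply max_le
  · apply le_of_sq_le_sq _ hr.le
    nlinarith [sq_nonneg ‖x.2‖]
  · apply le_of_sq_le_sq _ hr.le
    nlinarith [sq_nonneg ‖x.1‖]

theorem exists_radius (K : Set C2) (hK : IsCompact K) (hKb : K ⊆ bal 0 1) :
    ∃ ρ : ℝ, 0 < ρ ∧ ρ < 1 ∧ K ⊆ bal 0 ρ := by
  rcases K.eq_empty_or_nonempty with h | h
  · exact ⟨1 / 2, by norm_num, by norm_num, by simp [h]⟩
  · obtain ⟨x0, hx0, hmax⟩ := hK.exists_isMaxOn h nsq_cont.continuousOn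
    have h1 : nsq x0 < 1 := by
      have := hKb hx0
      simpa [bal] using this
    have h0 : 0 ≤ nsq x0 := by unfold nsq; positivity
    refine ⟨Real.sqrt ((1 + nsq x0) / 2), Real.sqrt_pos.mpr (by linarith), ?_, ?_⟩
    · rw [Real.sqrt_lt' (by norm_num)]
      linarith
    · intro y hy
      simp only [bal, mem_ofPred_eq, sub_zero]
      rw [Real.sq_sqrt (by linarith)]
      have := hmax hy
      simp only [mem_ofPred_eq] at this
      linarith

theorem tendsto_bilin (B : ℕ → C2 →L[ℝ] (C2 →L[ℝ] ℝ)) (A : C2 →L[ℝ] (C2 →L[ℝ] ℝ))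
    (h : ∀ a ∈ ({e1, I • e1, e2, I • e2} : Set C2), ∀ b ∈ ({e1, I • e1, e2, I • e2} : Set C2),
      Tendsto (fun n => B n a b) atTop (𝓝 (A a b))) (ξ η : C2) :
    Tendsto (fun n => B n ξ η) atTop (𝓝 (A ξ η)) := by
  have h1 : ∀ b ∈ ({e1, I • e1, e2, I • e2} : Set C2), Tendsto (fun n => B n ξ b) atTop (𝓝 (A ξ b)) := by
    intro b hb
    rw [C2_decomp ξ]
    simp only [map_add, map_smul, _root_.add_apply, _root_.smul_apply, smul_eq_mul]
    have ha1 := h e1 (by simp) b hb
    have ha2 := h (I • e1) (by simp) b hb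
    have ha3 := h e2 (by simp) b hb
    have ha4 := h (I • e2) (by simp) b hb
    exact (((ha1.const_mul _).add (ha2.const_mul _)).add (ha3.const_mul _)).add (ha4.const_mul _)
  rw [C2_decomp η]
  simp only [map_add, map_smul, smul_eq_mul]
  have ha1 := h1 e1 (by simp)
  have ha2 := h1 (I • e1) (by simp)
  have ha3 := h1 e2 (by simp)
  have ha4 := h1 (I • e2) (by simp)
  exact (((ha1.const_mul _).add (ha2.const_mul _)).add (ha3.const_mul _)).add (ha4.const_mul _)

/-- the shrinking bumps -/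
def bmp (d : ℝ) (hd : 0 < d) (n : ℕ) : ContDiffBump (0 : C2) :=
  ⟨d / (n + 1) / 2, d / (n + 1), by positivity, by
    have : 0 < d / (n + 1) := by positivity
    linarith⟩

theorem B6 (h3 : A3_stmt) : B6_stmt := by
  intro u G hu hG hLip hdeg h hh hhc hhs
  have hhaar := A5_haar
  have hK : IsCompact (tsupport h) := hhc
  obtain ⟨d, hd, hdU⟩ := hK.exists_cthickening_subset_open (bal_open 1) hhs
  have hK1 : IsCompact (Metric.cthickening d (tsupport h)) := hK.cthickening
  obtain ⟨ρ, hρ0, hρ1, hKρ⟩ := exists_radius _ hK1 hdU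
  obtain ⟨C0, hC0⟩ := hLip ρ hρ0 hρ1
  have hWU : bal 0 ρ ⊆ bal 0 1 := by
    intro x hx
    simp only [bal, mem_ofPred_eq, sub_zero] at hx ⊢
    nlinarith
  have hWo := bal_open ρ
  -- Lipschitz data
  let C1 : ℝ≥0 := (max C0 0).toNNReal
  have hC1 : (C1 : ℝ) = max C0 0 := Real.coe_toNNReal _ (le_max_right _ _)
  have hGL : LipschitzOnWith C1 G (bal 0 ρ) := by
    apply LipschitzOnWith.of_dist_le_mul
    intro x hx y hy
    rw [dist_eq_norm, dist_eq_norm, hC1]
    refine (hC0 x hx y hy).trans ?_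
    gcongr
    exact le_max_left _ _
  have h0W : (0 : C2) ∈ bal 0 ρ := by
    have h0 : nsq (0 : C2) = 0 := by simp [nsq]
    simp only [bal, mem_ofPred_eq, sub_zero, h0]
    positivity
  have hGb : ∀ x ∈ bal 0 ρ, ‖G x‖ ≤ ‖G 0‖ + C1 * ρ := by
    intro x hx
    have h1 := hC0 x hx 0 h0W
    have h2 := norm_le_of_bal ρ hρ0 x hx
    rw [sub_zero] at h1
    have h3 : ‖G x‖ ≤ ‖G 0‖ + ‖G x - G 0‖ := by
      have := norm_add_le (G 0) (G x - G 0)
      simpa using this
    have h4 : C0 * ‖x‖ ≤ C1 * ρ := by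
      rw [hC1]
      calc C0 * ‖x‖ ≤ max C0 0 * ‖x‖ := by gcongr; exact le_max_left _ _
        _ ≤ max C0 0 * ρ := by gcongr
    linarith
  let C2' : ℝ≥0 := (‖G 0‖ + C1 * ρ).toNNReal
  have hC2' : (C2' : ℝ) = ‖G 0‖ + C1 * ρ := Real.coe_toNNReal _ (by positivity)
  have huL : LipschitzOnWith C2' u (bal 0 ρ) := by
    apply Convex.lipschitzOnWith_of_nnnorm_hasFDerivWithin_le
      (fun x hx => (hG x (hWU hx)).hasFDerivWithinAt) _ (bal_convex ρ)
    intro x hx
    rw [← NNReal.coe_le_coe, hC2']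
    exact hGb x hx
  obtain ⟨U0, hU0L, hU0⟩ := huL.extend_real
  have hFex : ∀ η : C2, ∃ F : C2 → ℝ, LipschitzWith (C1 * ‖η‖₊) F ∧ EqOn (fun y => G y η) F (bal 0 ρ) := by
    intro η
    have : LipschitzOnWith (C1 * ‖η‖₊) (fun y => G y η) (bal 0 ρ) := by
      apply LipschitzOnWith.of_dist_le_mul
      intro x hx y hy
      have h1 := hGL.dist_le_mul x hx y hy
      rw [dist_eq_norm] at h1 ⊢
      rw [← _root_.sub_apply]
      refine ((G x - G y).le_opNorm η).trans ?_
      rw [NNReal.coe_mul, coe_nnnorm]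
      nlinarith [norm_nonneg η]
    exact this.extend_real
  choose F hFL hF using hFex
  -- mollifiers
  let V : Set C2 := Metric.thickening (d / 2) (tsupport h)
  have hVo : IsOpen V := Metric.isOpen_thickening
  have hVW : V ⊆ bal 0 ρ := ((Metric.thickening_mono (by linarith) _).trans
    (Metric.thickening_subset_cthickening d _)).trans hKρ
  let φ : ℕ → ContDiffBump (0 : C2) := bmp (d / 2) (by linarith)
  let ψ : ℕ → C2 → ℝ := fun n => (φ n).normed volume
  have hrout : ∀ n, (φ n).rOut = d / 2 / (n + 1) := fun n => rfl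
  have hrin : ∀ n, (φ n).rIn = d / 2 / (n + 1) / 2 := fun n => rfl
  have hrle : ∀ n, (φ n).rOut ≤ d / 2 := by
    intro n
    rw [hrout]
    apply div_le_self (by linarith)
    have : (0 : ℝ) ≤ n := Nat.cast_nonneg n
    linarith
  have hψs : ∀ n, ContDiff ℝ ∞ (ψ n) := fun n => (φ n).contDiff_normed
  have hψc : ∀ n, HasCompactSupport (ψ n) := fun n => (φ n).hasCompactSupport_normed
  have hψ0 : ∀ n t, 0 ≤ ψ n t := fun n t => (φ n).nonneg_normed t
  have hψ1 : ∀ n, ∫ t, ψ n t = 1 := fun n => (φ n).integral_normed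
  have hψsupp : ∀ n t, ψ n t ≠ 0 → ‖t‖ < (φ n).rOut := by
    intro n t ht
    have : t ∈ Function.support (ψ n) := ht
    rw [(φ n).support_normed_eq, mem_ball_zero_iff] at this
    exact this
  have hV : ∀ n, ∀ x ∈ V, ∀ t, ψ n t ≠ 0 → x - t ∈ bal 0 ρ := by
    intro n x hx t ht
    apply hKρ
    obtain ⟨z, hz, hxz⟩ := Metric.mem_thickening_iff.mp hx
    apply Metric.thickening_subset_cthickening
    rw [Metric.mem_thickening_iff]
    refine ⟨z, hz, ?_⟩
    have h1 : dist (x - t) x = ‖t‖ := by rw [dist_eq_norm]; simp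
    have h2 := dist_triangle (x - t) x z
    have h4 := (hψsupp n t ht).trans_le (hrle n)
    linarith
  let w : ℕ → C2 → ℝ := fun n => cvl (ψ n) U0
  have hws : ∀ n, ContDiff ℝ ∞ (w n) := fun n =>
    cvl_contDiff _ _ (hψs n) (hψc n) hU0L.continuous.locallyIntegrable
  have hwpsh : ∀ n, PshOn V (w n) := by
    intro n
    have hu' : PshOn (bal 0 ρ) u := ⟨hu.1.mono hWU, fun x ξ hx => hu.2 x ξ (hx.trans hWU)⟩
    exact cvl_psh (ψ n) u U0 (bal 0 ρ) V hu' hU0L.continuous (fun y hy => (hU0 hy).symm)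
      (hψs n).continuous (hψ0 n) (hψc n) (hV n) (hws n).continuous
  have hroutlim : Tendsto (fun n => (φ n).rOut) atTop (𝓝 0) := by
    have h1 : Tendsto (fun n : ℕ => (d / 2) * (1 / ((n : ℝ) + 1))) atTop (𝓝 ((d / 2) * 0)) :=
      tendsto_one_div_add_atTop_nhds_zero_nat.const_mul _
    rw [mul_zero] at h1
    refine h1.congr (fun n => ?_)
    rw [hrout]
    ring
  -- uniform convergence
  have hunif : TendstoUniformlyOn w u atTop V := by
    rw [Metric.tendstoUniformlyOn_iff]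
    intro ε hε
    have h1 : Tendsto (fun n => (C2' : ℝ) * (φ n).rOut) atTop (𝓝 (C2' * 0)) := hroutlim.const_mul _
    rw [mul_zero] at h1
    filter_upwards [h1.eventually (gt_mem_nhds hε)] with n hn x hx
    rw [hU0 (hVW hx), dist_comm]
    refine lt_of_le_of_lt ?_ hn
    apply (φ n).dist_normed_convolution_le hU0L.continuous.aestronglyMeasurable
    intro y hy
    refine (hU0L.dist_le_mul y x).trans ?_
    gcongr
    exact (Metric.mem_ball.mp hy).le
  -- first derivatives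
  have hlineU : ∀ y ∈ bal 0 ρ, ∀ η, lineDeriv ℝ U0 y η = G y η := by
    intro y hy η
    have h1 : U0 =ᶠ[𝓝 y] u := by
      filter_upwards [hWo.mem_nhds hy] with z hz
      exact (hU0 hz).symm
    have h2 : HasFDerivAt U0 (G y) y := (hG y (hWU hy)).congr_of_eventuallyEq h1
    exact (h2.hasLineDerivAt η).lineDeriv
  have hD1 : ∀ n, ∀ x ∈ V, ∀ η, fderiv ℝ (w n) x η = cvl (ψ n) (F η) x := by
    intro n x hx η
    rw [cvl_fderiv (ψ n) U0 C2' (hψs n) (hψc n) hU0L]
    apply cvl_congr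
    intro t ht
    have := hV n x hx t ht
    rw [hlineU _ this, ← hF η this]
  have hD2 : ∀ n, ∀ x ∈ V, ∀ ξ η, D2 (w n) x ξ η = cvl (ψ n) (fun y => lineDeriv ℝ (F η) y ξ) x := by
    intro n x hx ξ η
    rw [D2_eq _ (hws n), ← cvl_fderiv (ψ n) (F η) _ (hψs n) (hψc n) (hFL η)]
    have h1 : (fun y => fderiv ℝ (w n) y η) =ᶠ[𝓝 x] cvl (ψ n) (F η) := by
      filter_upwards [hVo.mem_nhds hx] with z hz
      exact hD1 n z hz η
    rw [h1.fderiv_eq]
  have hD2b : ∀ n, ∀ x ∈ V, ∀ ξ η, |D2 (w n) x ξ η| ≤ C1 * ‖η‖ * ‖ξ‖ := by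
    intro n x hx ξ η
    rw [hD2 n x hx]
    apply cvl_bound _ _ _ (hψs n).continuous (hψc n) (hψ0 n) (hψ1 n)
    intro y
    have := norm_lineDeriv_le_of_lipschitz ℝ (hFL η) (x₀ := y) (v := ξ)
    rw [NNReal.coe_mul, coe_nnnorm] at this
    exact this
  -- a.e. convergence
  have hae1 : ∀ ξ η : C2, ∀ᵐ x, Tendsto (fun n => cvl (ψ n) (fun y => lineDeriv ℝ (F η) y ξ) x) atTop
      (𝓝 (lineDeriv ℝ (F η) x ξ)) := by
    intro ξ η
    apply ContDiffBump.ae_convolution_tendsto_right_of_locallyIntegrable (K := 2) hroutlim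
    · filter_upwards with n
      rw [hrout, hrin]
      linarith
    · exact (hFL η).locallyIntegrable_lineDeriv ξ
  let S : Set C2 := {e1, I • e1, e2, I • e2}
  have hScount : S.Countable := by
    apply Set.Finite.countable
    simp [S]
  have hae2 : ∀ᵐ x, ∀ ξ ∈ S, ∀ η ∈ S, Tendsto (fun n => cvl (ψ n) (fun y => lineDeriv ℝ (F η) y ξ) x) atTop
      (𝓝 (lineDeriv ℝ (F η) x ξ)) := by
    rw [ae_ball_iff hScount]
    intro ξ hξ
    rw [ae_ball_iff hScount]
    intro η hη
    exact hae1 ξ η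
  have hae3 : ∀ᵐ x, x ∈ bal 0 ρ → DifferentiableWithinAt ℝ G (bal 0 ρ) x :=
    hGL.ae_differentiableWithinAt_of_mem
  have hae : ∀ᵐ x, x ∈ V → Tendsto (fun n => dens (w n) (w n) x) atTop (𝓝 0) := by
    filter_upwards [hae2, hae3] with x hx2 hx3 hxV
    have hxW := hVW hxV
    have hGd : DifferentiableAt ℝ G x := (hx3 hxW).differentiableAt (hWo.mem_nhds hxW)
    obtain ⟨A, hA⟩ : ∃ A, HasFDerivAt G A x := ⟨_, hGd.hasFDerivAt⟩
    have hlineF : ∀ ξ η, lineDeriv ℝ (F η) x ξ = A ξ η := by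
      intro ξ η
      have h1 : F η =ᶠ[𝓝 x] fun y => G y η := by
        filter_upwards [hWo.mem_nhds hxW] with z hz
        exact (hF η hz).symm
      have h2 : HasFDerivAt (fun y => G y η) (A.flip η) x := by
        have := hA.clm_apply (hasFDerivAt_const η x)
        have e : (G x).comp (0 : C2 →L[ℝ] C2) + A.flip η = A.flip η := by simp
        rw [e] at this
        exact this
      have h3 : HasFDerivAt (F η) (A.flip η) x := h2.congr_of_eventuallyEq h1
      rw [(h3.hasLineDerivAt ξ).lineDeriv]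
      rfl
    have hconv : ∀ ξ η, Tendsto (fun n => D2 (w n) x ξ η) atTop (𝓝 (A ξ η)) := by
      intro ξ η
      unfold D2
      apply tendsto_bilin
      intro a ha b hb
      have := hx2 a ha b hb
      rw [hlineF] at this
      refine this.congr (fun n => ?_)
      rw [← hD2 n x hxV a b]
      rfl
    have hsym : ∀ v v', A v v' = A v' v := by
      intro v v'
      apply second_derivative_symmetric_of_eventually (f := u) (f' := G) (x := x) _ hA
      filter_upwards [hWo.mem_nhds hxW] with z hz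
      exact hG z (hWU hz)
    have hpos : ∀ ξ, 0 ≤ A ξ ξ + A (I • ξ) (I • ξ) := by
      intro ξ
      have h1 : Tendsto (fun n => lap (w n) x ξ) atTop (𝓝 (A ξ ξ + A (I • ξ) (I • ξ))) :=
        (hconv ξ ξ).add (hconv (I • ξ) (I • ξ))
      apply ge_of_tendsto' h1
      intro n
      exact (((h3.2 V (w n) hVo (contDiff_infty.mp (hws n) 2).contDiffOn).mp (hwpsh n)) x hxV ξ)
    obtain ⟨ξ, hξ0, hξ⟩ := hdeg x (hWU hxW) A hA
    have hdet := herm_det (A e1 e1 + A (I • e1) (I • e1)) (A e2 e2 + A (I • e2) (I • e2))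
      (A e1 e2 + A (I • e1) (I • e2)) (A e1 (I • e2) - A (I • e1) e2)
      (by
        intro x1 y1 x2 y2
        rw [← lap_form A hsym x1 y1 x2 y2 _ rfl]
        exact hpos _)
      ⟨ξ.1.re, ξ.1.im, ξ.2.re, ξ.2.im, by
        rintro ⟨h1, h2, h3, h4⟩
        apply hξ0
        ext
        · exact Complex.ext h1 h2
        · exact Complex.ext h3 h4, by
        rw [← lap_form A hsym _ _ _ _ ξ (C2_decomp ξ)]
        exact hξ⟩
    have hlim : Tendsto (fun n => dens (w n) (w n) x) atTop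
        (𝓝 (((A e1 e1 + A (I • e1) (I • e1)) * (A e2 e2 + A (I • e2) (I • e2)) +
          (A e2 e2 + A (I • e2) (I • e2)) * (A e1 e1 + A (I • e1) (I • e1)) -
          2 * ((A e1 e2 + A (I • e1) (I • e2)) * (A e1 e2 + A (I • e1) (I • e2))) -
          2 * ((A e1 (I • e2) - A (I • e1) e2) * (A e1 (I • e2) - A (I • e1) e2))) / (4 * π ^ 2))) := by
      have ta : Tendsto (fun n => MAP.hA (w n) x) atTop (𝓝 (A e1 e1 + A (I • e1) (I • e1))) :=
        (hconv _ _).add (hconv _ _)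
      have tc : Tendsto (fun n => hC (w n) x) atTop (𝓝 (A e2 e2 + A (I • e2) (I • e2))) :=
        (hconv _ _).add (hconv _ _)
      have tb : Tendsto (fun n => hB (w n) x) atTop (𝓝 (A e1 e2 + A (I • e1) (I • e2))) :=
        (hconv _ _).add (hconv _ _)
      have tb' : Tendsto (fun n => hB' (w n) x) atTop (𝓝 (A e1 (I • e2) - A (I • e1) e2)) :=
        (hconv _ _).sub (hconv _ _)
      exact (((((ta.mul tc).add (tc.mul ta)).sub ((tb.mul tb).const_mul 2)).sub
        ((tb'.mul tb').const_mul 2))).div_const _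
    have hz : ((A e1 e1 + A (I • e1) (I • e1)) * (A e2 e2 + A (I • e2) (I • e2)) +
          (A e2 e2 + A (I • e2) (I • e2)) * (A e1 e1 + A (I • e1) (I • e1)) -
          2 * ((A e1 e2 + A (I • e1) (I • e2)) * (A e1 e2 + A (I • e1) (I • e2))) -
          2 * ((A e1 (I • e2) - A (I • e1) e2) * (A e1 (I • e2) - A (I • e1) e2))) / (4 * π ^ 2) = 0 := by
      rw [div_eq_zero_iff]
      left
      linarith
    rw [hz] at hlim
    exact hlim
  refine ⟨V, w, hVo, Metric.self_subset_thickening (by linarith) _, hVW.trans hWU, hws, hwpsh, hunif, ?_⟩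
  -- dominated convergence
  let R : ℝ := ‖e1‖ + ‖I • e1‖ + ‖e2‖ + ‖I • e2‖
  let c : ℝ := C1 * R * R
  have hSR : ∀ ξ ∈ S, ‖ξ‖ ≤ R := by
    have n1 := norm_nonneg e1
    have n2 := norm_nonneg (I • e1)
    have n3 := norm_nonneg e2
    have n4 := norm_nonneg (I • e2)
    rintro ξ (rfl | rfl | rfl | rfl) <;> simp only [R] <;> linarith
  have hR0 : 0 ≤ R := by simp only [R]; positivity
  have hc0 : 0 ≤ c := by simp only [c]; positivity
  have hb2 : ∀ n, ∀ x ∈ V, ∀ ξ ∈ S, ∀ η ∈ S, |D2 (w n) x ξ η| ≤ c := by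
    intro n x hx ξ hξ η hη
    refine (hD2b n x hx ξ η).trans ?_
    have h1 := hSR ξ hξ
    have h2 := hSR η hη
    simp only [c]
    gcongr
  have hbA : ∀ n, ∀ x ∈ V, |MAP.hA (w n) x| ≤ 2 * c := by
    intro n x hx
    refine (abs_add_le _ _).trans ?_
    have h1 := hb2 n x hx e1 (by simp [S]) e1 (by simp [S])
    have h2 := hb2 n x hx (I • e1) (by simp [S]) (I • e1) (by simp [S])
    linarith
  have hbC : ∀ n, ∀ x ∈ V, |hC (w n) x| ≤ 2 * c := by
    intro n x hx
    refine (abs_add_le _ _).trans ?_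
    have h1 := hb2 n x hx e2 (by simp [S]) e2 (by simp [S])
    have h2 := hb2 n x hx (I • e2) (by simp [S]) (I • e2) (by simp [S])
    linarith
  have hbB : ∀ n, ∀ x ∈ V, |hB (w n) x| ≤ 2 * c := by
    intro n x hx
    refine (abs_add_le _ _).trans ?_
    have h1 := hb2 n x hx e1 (by simp [S]) e2 (by simp [S])
    have h2 := hb2 n x hx (I • e1) (by simp [S]) (I • e2) (by simp [S])
    linarith
  have hbB' : ∀ n, ∀ x ∈ V, |hB' (w n) x| ≤ 2 * c := by
    intro n x hx
    refine (abs_sub _ _).trans ?_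
    have h1 := hb2 n x hx e1 (by simp [S]) (I • e2) (by simp [S])
    have h2 := hb2 n x hx (I • e1) (by simp [S]) e2 (by simp [S])
    linarith
  have hprod : ∀ p q : ℝ, |p| ≤ 2 * c → |q| ≤ 2 * c → |p * q| ≤ 4 * c ^ 2 := by
    intro p q hp hq
    rw [abs_mul]
    calc |p| * |q| ≤ (2 * c) * (2 * c) := by gcongr
      _ = 4 * c ^ 2 := by ring
  obtain ⟨M, hM⟩ : ∃ M : ℝ, ∀ n, ∀ x ∈ V, |dens (w n) (w n) x| ≤ M := by
    refine ⟨24 * c ^ 2 / (4 * π ^ 2), fun n x hx => ?_⟩
    unfold dens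
    rw [abs_div, abs_of_pos (show (0 : ℝ) < 4 * π ^ 2 by positivity)]
    gcongr
    have h1 := abs_le.mp (hprod _ _ (hbA n x hx) (hbC n x hx))
    have h2 := abs_le.mp (hprod _ _ (hbC n x hx) (hbA n x hx))
    have h3 := abs_le.mp (hprod _ _ (hbB n x hx) (hbB n x hx))
    have h4 := abs_le.mp (hprod _ _ (hbB' n x hx) (hbB' n x hx))
    rw [abs_le]
    constructor <;> linarith [h1.1, h1.2, h2.1, h2.2, h3.1, h3.2, h4.1, h4.2]
  have hhV : ∀ x, x ∉ V → h x = 0 := by
    intro x hx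
    by_contra h0
    exact hx (Metric.self_subset_thickening (by linarith) _ (subset_tsupport h h0))
  have hz : (0 : ℝ) = ∫ x : C2, (0 : ℝ) := by simp
  rw [hz]
  apply tendsto_integral_of_dominated_convergence (fun x => |h x| * M)
  · intro n
    apply Continuous.aestronglyMeasurable
    have c0 := hh.continuous
    have cD := fun ξ η => D2_cont (w n) (hws n) ξ η
    unfold dens MAP.hA hC hB hB' lap
    have c1 := cD e1 e1
    have c2 := cD (I • e1) (I • e1)
    have c3 := cD e2 e2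
    have c4 := cD (I • e2) (I • e2)
    have c5 := cD e1 e2
    have c6 := cD (I • e1) (I • e2)
    have c7 := cD e1 (I • e2)
    have c8 := cD (I • e1) e2
    fun_prop
  · have : Integrable (fun x => |h x|) (volume : Measure C2) :=
      (hh.continuous.integrable_of_hasCompactSupport hhc).abs
    exact this.mul_const M
  · intro n
    filter_upwards with x
    rw [norm_mul, Real.norm_eq_abs, Real.norm_eq_abs]
    by_cases hx : x ∈ V
    · exact mul_le_mul_of_nonneg_left (hM n x hx) (abs_nonneg _)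
    · rw [hhV x hx]
      simp
  · filter_upwards [hae] with x hx
    by_cases hxV : x ∈ V
    · have := (hx hxV).const_mul (h x)
      rwa [mul_zero] at this
    · simp only [hhV x hxV, zero_mul]
      exact tendsto_const_nhds

end

end MAP
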